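import Pool.Agent.H26.U.Stmts

/-!
# Project U: the basic properties of `ez` and `sz`
-/

namespace Pool.Agent.H26.U

open Matrix

variable {n : ℕ} [NeZero n]

theorem ez_eq (v : ZMod n) : ez v = ZMod.stdAddChar v := by
  rw [ZMod.stdAddChar_apply, ZMod.toCircle_apply, ez]
  congr 1
  ring

theorem ez_add (u v : ZMod n) : ez (u + v) = ez u * ez v := by
  simp only [ez_eq, AddChar.map_add_eq_mul]

theorem ez_zero : ez (0 : ZMod n) = 1 := by
  rw [ez_eq, AddChar.map_zero_eq_one]

theorem norm_ez (v : ZMod n) : ‖ez v‖ = 1 := by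
  rw [ez_eq, ZMod.stdAddChar_apply]
  simp

theorem ez_mul_star (v : ZMod n) : ez v * star (ez v) = 1 := by
  rw [Complex.star_def, Complex.mul_conj, Complex.normSq_eq_norm_sq, norm_ez]; norm_num

theorem star_mul_ez (v : ZMod n) : star (ez v) * ez v = 1 := by
  rw [mul_comm, ez_mul_star]

theorem ez_ne_zero (v : ZMod n) : ez v ≠ 0 := by
  intro h
  have := norm_ez v
  rw [h] at this
  norm_num at this

theorem ez_neg (v : ZMod n) : ez (-v) = star (ez v) := by
  apply mul_left_cancel₀ (ez_ne_zero v)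
  rw [← ez_add, ez_mul_star, add_neg_cancel, ez_zero]

theorem ez_sub (u v : ZMod n) : ez (u - v) = ez u * star (ez v) := by
  rw [sub_eq_add_neg, ez_add, ez_neg]

theorem ez_natCast (k : ℕ) :
    ez (k : ZMod n) = Complex.exp (2 * Real.pi * Complex.I * ((k : ℂ) / n)) := by
  rw [ez_eq, ZMod.stdAddChar_apply, ZMod.toCircle_natCast]
  congr 1
  ring

theorem ez_natCast_mul (k : ℕ) (u : ZMod n) : ez ((k : ZMod n) * u) = ez u ^ k := by
  rw [ez_eq, ez_eq, ← AddChar.map_nsmul_eq_pow, nsmul_eq_mul]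

theorem ez_eq_one_iff (v : ZMod n) : ez v = 1 ↔ v = 0 := by
  rw [ez_eq]
  constructor
  · intro h
    rwa [← (ZMod.stdAddChar (N := n)).map_zero_eq_one, ZMod.injective_stdAddChar.eq_iff] at h
  · rintro rfl
    exact AddChar.map_zero_eq_one _

/-- orthogonality -/
theorem sum_ez_mul (a : ZMod n) : ∑ u, ez (a * u) = if a = 0 then (n : ℂ) else 0 := by
  have h := AddChar.sum_mulShift a (ZMod.isPrimitive_stdAddChar n)
  rw [ZMod.card] at h
  have e : ∀ u : ZMod n, ez (a * u) = ZMod.stdAddChar (u * a) := by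
    intro u
    rw [ez_eq, mul_comm]
  simp only [e]
  rw [h]
  push_cast
  rfl

theorem sum_ez_mul' (a : ZMod n) : ∑ u : ZMod n, ez (u * a) = if a = 0 then (n : ℂ) else 0 := by
  rw [← sum_ez_mul]
  apply Finset.sum_congr rfl
  intro u _
  rw [mul_comm]

theorem ez_exp_real (v : ZMod n) :
    ez v = Complex.exp (((2 * Real.pi * ((v.val : ℝ) / n) : ℝ) : ℂ) * Complex.I) := by
  rw [ez]
  congr 1
  push_cast
  ring

theorem sz_eq_im (v : ZMod n) : sz v = (ez v).im := by
  rw [ez_exp_real, Complex.exp_ofReal_mul_I_im, sz]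

theorem sz_neg (v : ZMod n) : sz (-v) = -sz v := by
  rw [sz_eq_im, sz_eq_im, ez_neg]
  simp

theorem sz_zero : sz (0 : ZMod n) = 0 := by
  rw [sz_eq_im, ez_zero]; simp

theorem abs_sz_le_one (v : ZMod n) : |sz v| ≤ 1 := Real.abs_sin_le_one _

theorem two_I_sz (v : ZMod n) : 2 * Complex.I * (sz v : ℂ) = ez v - ez (-v) := by
  rw [ez_neg, sz_eq_im]
  apply Complex.ext
  · simp
  · simp
    ring

theorem sz_natCast (k : ℕ) : sz (k : ZMod n) = Real.sin (2 * Real.pi * ((k : ℝ) / n)) := by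
  rw [sz_eq_im, ez_natCast]
  have : (2 * Real.pi * Complex.I * ((k : ℂ) / n)) =
      ((2 * Real.pi * ((k : ℝ) / n) : ℝ) : ℂ) * Complex.I := by push_cast; ring
  rw [this, Complex.exp_ofReal_mul_I_im]

theorem sz_eq_zero_iff (hn : Odd n) (v : ZMod n) : sz v = 0 ↔ v = 0 := by
  constructor
  · intro h
    have h2 := two_I_sz v
    rw [h] at h2
    have h3 : ez v = ez (-v) := by
      have : (0 : ℂ) = ez v - ez (-v) := by rw [← h2]; simp
      exact (sub_eq_zero.mp this.symm)
    rw [ez_eq, ez_eq, ZMod.injective_stdAddChar.eq_iff] at h3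
    have h4 : (2 : ZMod n) * v = 0 := by
      rw [two_mul]
      nth_rewrite 1 [h3]
      simp
    have hu : IsUnit (2 : ZMod n) := by
      have : ((2 : ℕ) : ZMod n) = 2 := by norm_num
      rw [← this, ZMod.isUnit_iff_coprime]
      exact (Nat.coprime_two_left).mpr hn
    exact (hu.mul_right_eq_zero).mp h4
  · rintro rfl
    exact sz_zero

theorem norm_one_sub_exp (t : ℝ) :
    ‖1 - Complex.exp ((t : ℂ) * Complex.I)‖ = 2 * |Real.sin (t / 2)| := by
  have h : ‖1 - Complex.exp ((t : ℂ) * Complex.I)‖ ^ 2 = (2 * |Real.sin (t / 2)|) ^ 2 := by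
    rw [Complex.sq_norm, Complex.normSq_apply]
    rw [Complex.sub_re, Complex.sub_im, Complex.exp_ofReal_mul_I_re, Complex.exp_ofReal_mul_I_im]
    simp only [Complex.one_re, Complex.one_im]
    rw [mul_pow, sq_abs]
    have h1 : Real.cos t = 1 - 2 * Real.sin (t / 2) ^ 2 := by
      have := Real.cos_two_mul (t / 2)
      rw [show 2 * (t / 2) = t by ring] at this
      have h2 := Real.sin_sq_add_cos_sq (t / 2)
      linarith
    have h2 := Real.sin_sq_add_cos_sq t
    nlinarith
  exact (pow_left_inj₀ (norm_nonneg _) (by positivity) (by norm_num)).mp h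

theorem norm_one_sub_ez (v : ZMod n) :
    ‖1 - ez v‖ = 2 * |Real.sin (Real.pi * ((v.val : ℝ) / n))| := by
  rw [ez_exp_real, norm_one_sub_exp]
  congr 3
  ring

theorem norm_one_sub_ez_ge (v : ZMod n) :
    4 * min (v.val : ℝ) ((n : ℝ) - v.val) / n ≤ ‖1 - ez v‖ := by
  have hn : (0 : ℝ) < n := by exact_mod_cast Nat.pos_of_ne_zero (NeZero.ne n)
  have hv : (v.val : ℝ) < n := by exact_mod_cast ZMod.val_lt v
  have hv0 : (0 : ℝ) ≤ v.val := by positivity
  rw [norm_one_sub_ez]
  obtain ⟨a, ha⟩ : ∃ a : ℝ, a = v.val := ⟨_, rfl⟩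
  rw [← ha] at hv hv0 ⊢
  have hpi := Real.pi_pos
  rcases le_total a ((n : ℝ) - a) with h | h
  · rw [min_eq_left h]
    have h1 : 2 / Real.pi * (Real.pi * (a / n)) ≤ Real.sin (Real.pi * (a / n)) := by
      apply Real.mul_le_sin (by positivity)
      have : a / n ≤ 1 / 2 := by
        rw [div_le_iff₀ hn]; linarith
      nlinarith
    have h2 : 2 / Real.pi * (Real.pi * (a / n)) = 2 * a / n := by
      field_simp
    have h3 := le_abs_self (Real.sin (Real.pi * (a / n)))
    have h4 : 4 * a / n = 2 * (2 * a / n) := by ring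
    rw [h4]
    linarith
  · rw [min_eq_right h]
    have h1 : 2 / Real.pi * (Real.pi * (((n : ℝ) - a) / n)) ≤
        Real.sin (Real.pi * (((n : ℝ) - a) / n)) := by
      apply Real.mul_le_sin
      · have : 0 ≤ (n : ℝ) - a := by linarith
        positivity
      · have : ((n : ℝ) - a) / n ≤ 1 / 2 := by
          rw [div_le_iff₀ hn]; linarith
        nlinarith
    have h2 : 2 / Real.pi * (Real.pi * (((n : ℝ) - a) / n)) = 2 * ((n : ℝ) - a) / n := by
      field_simp
    have h5 : Real.pi * (((n : ℝ) - a) / n) = Real.pi - Real.pi * (a / n) := by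
      field_simp
    rw [h5, Real.sin_pi_sub] at h1
    rw [← h5, h2] at h1
    have h3 := le_abs_self (Real.sin (Real.pi * (a / n)))
    have h4 : 4 * ((n : ℝ) - a) / n = 2 * (2 * ((n : ℝ) - a) / n) := by ring
    rw [h4]
    linarith

end Pool.Agent.H26.U
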