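import Pool.Agent.H26.U.SER

/-!
# Project U: GAM, elementary bounds
-/

namespace Pool.Agent.H26.U

open Matrix

theorem sum_inv_sq_le' (m : ℕ) :
    ∑ v ∈ Finset.range m, 1 / ((v : ℝ) + 1) ^ 2 ≤ 2 - 1 / (m : ℝ) := by
  induction m with
  | zero => simp
  | succ m ih =>
    rw [Finset.sum_range_succ]
    rcases Nat.eq_zero_or_pos m with h | h
    · subst h; norm_num
    · have hm : (0 : ℝ) < m := by exact_mod_cast h
      have h1 : 1 / ((m : ℝ) + 1) ^ 2 ≤ 1 / (m : ℝ) - 1 / ((m : ℝ) + 1) := by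
        rw [div_sub_div _ _ (by positivity) (by positivity), div_le_div_iff₀ (by positivity)
          (by positivity)]
        nlinarith
      push_cast
      linarith

theorem norm_factor_sq (κ : ℝ) (i : ℕ) :
    ‖(1 : ℂ) - Complex.I * κ / ((i : ℂ) + 1)‖ ^ 2 = 1 + κ ^ 2 / ((i : ℝ) + 1) ^ 2 := by
  have e : (1 : ℂ) - Complex.I * κ / ((i : ℂ) + 1) = ⟨1, -(κ / ((i : ℝ) + 1))⟩ := by
    have h : Complex.I * (κ : ℂ) / ((i : ℂ) + 1) = ((κ / ((i : ℝ) + 1) : ℝ) : ℂ) * Complex.I := by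
      push_cast; ring
    rw [h]
    obtain ⟨t, ht⟩ : ∃ t : ℝ, t = κ / ((i : ℝ) + 1) := ⟨_, rfl⟩
    rw [← ht]
    apply Complex.ext
    · simp
    · simp
  rw [e, Complex.sq_norm, Complex.normSq_mk, ← div_pow]
  ring

theorem norm_gam_sq_le (κ : ℝ) (j : ℕ) :
    ‖gam κ j‖ ^ 2 ≤ Real.exp (κ ^ 2 * ∑ v ∈ Finset.range j, 1 / ((v : ℝ) + 1) ^ 2) := by
  induction j with
  | zero => simp [gam_zero]
  | succ j ih =>
    rw [gam_succ, norm_mul, mul_pow, norm_factor_sq, Finset.sum_range_succ,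
      mul_add (κ ^ 2), Real.exp_add]
    apply mul_le_mul ih _ (by positivity) (Real.exp_pos _).le
    have := Real.add_one_le_exp (κ ^ 2 * (1 / ((j : ℝ) + 1) ^ 2))
    have e : κ ^ 2 * (1 / ((j : ℝ) + 1) ^ 2) = κ ^ 2 / ((j : ℝ) + 1) ^ 2 := by ring
    rw [e] at this ⊢
    linarith

theorem norm_gam_le (κ : ℝ) (hκ : |κ| ≤ 1 / 4) (j : ℕ) : ‖gam κ j‖ ≤ 2 := by
  have h1 := norm_gam_sq_le κ j
  have h2 := sum_inv_sq_le' j
  have h3 : (0 : ℝ) ≤ 1 / (j : ℝ) := by positivity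
  have h4 : κ ^ 2 ≤ 1 / 16 := by
    rw [← sq_abs]
    have := abs_nonneg κ
    nlinarith
  have h5 : κ ^ 2 * ∑ v ∈ Finset.range j, 1 / ((v : ℝ) + 1) ^ 2 ≤ 1 := by
    have h6 : 0 ≤ ∑ v ∈ Finset.range j, 1 / ((v : ℝ) + 1) ^ 2 :=
      Finset.sum_nonneg fun i _ => by positivity
    have h7 : 0 ≤ κ ^ 2 := sq_nonneg κ
    nlinarith
  have h6 := Real.exp_le_exp.mpr h5
  have h7 := Real.exp_one_lt_d9
  have h8 : ‖gam κ j‖ ^ 2 ≤ 2 ^ 2 := by linarith
  exact (pow_le_pow_iff_left₀ (norm_nonneg _) (by norm_num) (by norm_num)).mp h8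

theorem norm_nc (j : ℕ) : ‖((j : ℂ) + 1)‖ = (j : ℝ) + 1 := by
  have : ((j : ℂ) + 1) = ((j + 1 : ℕ) : ℂ) := by push_cast; ring
  rw [this, Complex.norm_natCast]
  push_cast; ring

theorem norm_alp_succ_le (κ : ℝ) (hκ : |κ| ≤ 1 / 4) (j : ℕ) :
    ‖alp κ (j + 1)‖ ≤ 1 / (2 * ((j : ℝ) + 1)) := by
  rw [alp_succ, norm_mul, norm_div, norm_neg, norm_mul, Complex.norm_I, one_mul,
    Complex.norm_real, Real.norm_eq_abs, norm_nc]
  have h1 := norm_gam_le κ hκ j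
  have h2 : (0 : ℝ) < (j : ℝ) + 1 := by positivity
  calc |κ| / ((j : ℝ) + 1) * ‖gam κ j‖ ≤ (1 / 4) / ((j : ℝ) + 1) * 2 := by
        apply mul_le_mul _ h1 (norm_nonneg _) (by positivity)
        exact div_le_div_of_nonneg_right hκ h2.le
    _ = 1 / (2 * ((j : ℝ) + 1)) := by field_simp; norm_num

theorem GAM : S_GAM := by
  intro κ hκ
  refine ⟨norm_gam_le κ hκ, ?_, norm_alp_succ_le κ hκ, ?_⟩
  · intro j
    rw [alp_succ, gam_succ]
    ring
  · intro j
    rw [bet, bet, ← star_sub, norm_star]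
    have e : alp κ (j + 2) - alp κ (j + 1) = alp κ (j + 1) * (-(1 + Complex.I * κ) / ((j : ℂ) + 2)) := by
      have h1 := alp_rec κ (j + 1)
      have h2 : ((j : ℂ) + 2) ≠ 0 := by
        have := nc_ne (j + 1)
        push_cast at this
        intro h
        apply this
        rw [← h]; ring
      push_cast at h1
      have h3 : alp κ (j + 2) = alp κ (j + 1) * ((j : ℂ) + 1 - Complex.I * κ) / ((j : ℂ) + 2) := by
        rw [eq_div_iff h2]
        linear_combination h1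
      rw [h3]
      field_simp
      ring
    rw [e, norm_mul]
    have h1 := norm_alp_succ_le κ hκ j
    have h2 : ‖-(1 + Complex.I * κ) / ((j : ℂ) + 2)‖ ≤ 2 / ((j : ℝ) + 2) := by
      rw [norm_div, norm_neg]
      have h3 : ‖((j : ℂ) + 2)‖ = (j : ℝ) + 2 := by
        have : ((j : ℂ) + 2) = ((j + 2 : ℕ) : ℂ) := by push_cast; ring
        rw [this, Complex.norm_natCast]
        push_cast; ring
      rw [h3]
      apply div_le_div_of_nonneg_right _ (by positivity)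
      refine le_trans (norm_add_le _ _) ?_
      rw [norm_one, norm_mul, Complex.norm_I, one_mul, Complex.norm_real, Real.norm_eq_abs]
      linarith
    calc ‖alp κ (j + 1)‖ * ‖-(1 + Complex.I * κ) / ((j : ℂ) + 2)‖
        ≤ 1 / (2 * ((j : ℝ) + 1)) * (2 / ((j : ℝ) + 2)) :=
          mul_le_mul h1 h2 (norm_nonneg _) (by positivity)
      _ = 1 / (((j : ℝ) + 1) * ((j : ℝ) + 2)) := by field_simp

end Pool.Agent.H26.U
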