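import Pool.Agent.H26.U.SER

/-!
# Project U: GBD and FBD
-/

namespace Pool.Agent.H26.U

open Matrix

theorem abel_sum (a b : ℕ → ℂ) (m : ℕ) :
    ∑ k ∈ Finset.range (m + 1), a k * b k =
      a m * ∑ j ∈ Finset.range (m + 1), b j +
      ∑ k ∈ Finset.range m, (a k - a (k + 1)) * ∑ j ∈ Finset.range (k + 1), b j := by
  induction m with
  | zero => simp
  | succ m ih =>
    rw [Finset.sum_range_succ, ih, Finset.sum_range_succ (fun j => b j) (m + 1),
      Finset.sum_range_succ (fun k => (a k - a (k + 1)) * ∑ j ∈ Finset.range (k + 1), b j) m]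
    ring

theorem GBD (h1 : S_GAM) (h2 : S_PSB) : S_GBD := by
  obtain ⟨CP, hCP⟩ := h2
  refine ⟨3 * CP + 2, ?_⟩
  intro κ hκ ζ hζ c
  obtain ⟨hg, hag, ha, -⟩ := h1 κ hκ
  have hP := hCP κ hκ ζ hζ
  have hCP0 : 0 ≤ CP := le_trans (norm_nonneg _) (hP 0)
  obtain ⟨h, hh⟩ : ∃ h, h = c / 2 := ⟨_, rfl⟩
  have hhc : h ≤ c := by omega
  rw [Gco, ← Finset.sum_range_add_sum_Ico _ (show h + 1 ≤ c + 1 by omega)]
  have e1 : ∑ k ∈ Finset.range (h + 1), gam κ (c - k) * bet κ k * ζ ^ k =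
      gam κ (c - h) * ∑ j ∈ Finset.range (h + 1), bet κ j * ζ ^ j +
      ∑ k ∈ Finset.range h, (gam κ (c - k) - gam κ (c - (k + 1))) *
        ∑ j ∈ Finset.range (k + 1), bet κ j * ζ ^ j := by
    have := abel_sum (fun k => gam κ (c - k)) (fun k => bet κ k * ζ ^ k) h
    rw [← this]
    apply Finset.sum_congr rfl
    intro k _
    ring
  have b1 : ‖gam κ (c - h) * ∑ j ∈ Finset.range (h + 1), bet κ j * ζ ^ j‖ ≤ 2 * CP := by
    rw [norm_mul]
    exact mul_le_mul (hg _) (hP h) (norm_nonneg _) (by norm_num)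
  have b2 : ‖∑ k ∈ Finset.range h, (gam κ (c - k) - gam κ (c - (k + 1))) *
        ∑ j ∈ Finset.range (k + 1), bet κ j * ζ ^ j‖ ≤ CP := by
    refine le_trans (norm_sum_le _ _) ?_
    have : ∀ k ∈ Finset.range h, ‖(gam κ (c - k) - gam κ (c - (k + 1))) *
        ∑ j ∈ Finset.range (k + 1), bet κ j * ζ ^ j‖ ≤ CP / ((h : ℝ) + 1) := by
      intro k hk
      rw [Finset.mem_range] at hk
      rw [norm_mul]
      obtain ⟨j, hj⟩ : ∃ j, c - k = j + 1 := ⟨c - k - 1, by omega⟩
      have hj' : c - (k + 1) = j := by omega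
      rw [hj, hj', ← hag j]
      have hb : ‖alp κ (j + 1)‖ ≤ 1 / ((h : ℝ) + 1) := by
        refine le_trans (ha j) ?_
        apply one_div_le_one_div_of_le (by positivity)
        have : (h : ℝ) ≤ j := by exact_mod_cast (by omega : h ≤ j)
        have : (0 : ℝ) ≤ j := by positivity
        linarith
      calc ‖alp κ (j + 1)‖ * ‖∑ j ∈ Finset.range (k + 1), bet κ j * ζ ^ j‖
          ≤ 1 / ((h : ℝ) + 1) * CP := mul_le_mul hb (hP k) (norm_nonneg _) (by positivity)
        _ = CP / ((h : ℝ) + 1) := by ring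
    refine le_trans (Finset.sum_le_sum this) ?_
    rw [Finset.sum_const, Finset.card_range, nsmul_eq_mul]
    rw [mul_div_assoc', div_le_iff₀ (by positivity)]
    nlinarith
  have b3 : ‖∑ k ∈ Finset.Ico (h + 1) (c + 1), gam κ (c - k) * bet κ k * ζ ^ k‖ ≤ 2 := by
    refine le_trans (norm_sum_le _ _) ?_
    have : ∀ k ∈ Finset.Ico (h + 1) (c + 1), ‖gam κ (c - k) * bet κ k * ζ ^ k‖ ≤
        2 / ((c : ℝ) + 1) := by
      intro k hk
      rw [Finset.mem_Ico] at hk
      rw [norm_mul, norm_mul, norm_pow, hζ, one_pow, mul_one]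
      obtain ⟨j, rfl⟩ : ∃ j, k = j + 1 := ⟨k - 1, by omega⟩
      have hb : ‖bet κ (j + 1)‖ ≤ 1 / ((c : ℝ) + 1) := by
        rw [bet, norm_star]
        refine le_trans (ha j) ?_
        apply one_div_le_one_div_of_le (by positivity)
        have : (c : ℝ) + 1 ≤ 2 * (j + 1) := by exact_mod_cast (by omega : c + 1 ≤ 2 * (j + 1))
        linarith
      calc ‖gam κ (c - (j + 1))‖ * ‖bet κ (j + 1)‖ ≤ 2 * (1 / ((c : ℝ) + 1)) :=
            mul_le_mul (hg _) hb (norm_nonneg _) (by norm_num)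
        _ = 2 / ((c : ℝ) + 1) := by ring
    refine le_trans (Finset.sum_le_sum this) ?_
    rw [Finset.sum_const, Nat.card_Ico, nsmul_eq_mul]
    rw [mul_div_assoc', div_le_iff₀ (by positivity)]
    have : ((c + 1 - (h + 1) : ℕ) : ℝ) ≤ (c : ℝ) + 1 := by
      exact_mod_cast (by omega : c + 1 - (h + 1) ≤ c + 1)
    linarith
  rw [e1]
  calc ‖gam κ (c - h) * ∑ j ∈ Finset.range (h + 1), bet κ j * ζ ^ j +
      ∑ k ∈ Finset.range h, (gam κ (c - k) - gam κ (c - (k + 1))) *
        ∑ j ∈ Finset.range (k + 1), bet κ j * ζ ^ j +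
      ∑ k ∈ Finset.Ico (h + 1) (c + 1), gam κ (c - k) * bet κ k * ζ ^ k‖
      ≤ 2 * CP + CP + 2 := norm_add_le_of_le (norm_add_le_of_le b1 b2) b3
    _ = 3 * CP + 2 := by ring

theorem FBD (h1 : S_GBD) (h2 : S_GAM) : S_FBD := by
  obtain ⟨C, hC⟩ := h1
  refine ⟨C, ?_⟩
  intro κ hκ ζ hζ c hc
  have hG := hC κ hκ ζ hζ
  have hC0 : 0 ≤ C := le_trans (norm_nonneg _) (hG 0)
  obtain ⟨m, rfl⟩ : ∃ m, c = m + 1 := ⟨c - 1, by omega⟩
  have hζ1 : ζ * star ζ = 1 := by
    rw [Complex.star_def, Complex.mul_conj, Complex.normSq_eq_norm_sq, hζ]; norm_num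
  have key : ((m : ℂ) + 1) * Fco κ ζ (m + 1) =
      -(Complex.I * κ) * Gco κ ζ m + Complex.I * κ * ζ * (ζ ^ m * star (Gco κ ζ m)) := by
    have s1 : ((m : ℂ) + 1) * Fco κ ζ (m + 1) =
        ∑ k ∈ Finset.range (m + 2), (((m : ℂ) + 1 - k) * alp κ (m + 1 - k)) * bet κ k * ζ ^ k +
        ∑ k ∈ Finset.range (m + 2), alp κ (m + 1 - k) * (k * bet κ k) * ζ ^ k := by
      rw [Fco, Finset.mul_sum, ← Finset.sum_add_distrib]
      apply Finset.sum_congr rfl
      intro k _
      ring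
    have s2 : ∑ k ∈ Finset.range (m + 2), (((m : ℂ) + 1 - k) * alp κ (m + 1 - k)) * bet κ k * ζ ^ k
        = -(Complex.I * κ) * Gco κ ζ m := by
      rw [Finset.sum_range_succ, Gco, Finset.mul_sum]
      have : (((m : ℂ) + 1 - ((m + 1 : ℕ) : ℂ)) * alp κ (m + 1 - (m + 1))) * bet κ (m + 1) *
          ζ ^ (m + 1) = 0 := by push_cast; ring
      rw [this, add_zero]
      apply Finset.sum_congr rfl
      intro k hk
      rw [Finset.mem_range] at hk
      obtain ⟨j, rfl⟩ : ∃ j, m = k + j := ⟨m - k, by omega⟩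
      have e1 : k + j + 1 - k = j + 1 := by omega
      have e2 : k + j - k = j := by omega
      rw [e1, e2, alp_succ]
      have := nc_ne j
      push_cast
      have e3 : (k : ℂ) + j + 1 - k = j + 1 := by ring
      rw [e3]
      field_simp
    have s3 : ∑ k ∈ Finset.range (m + 2), alp κ (m + 1 - k) * (k * bet κ k) * ζ ^ k =
        Complex.I * κ * ζ * (ζ ^ m * star (Gco κ ζ m)) := by
      rw [Finset.sum_range_succ', Gco, star_sum, Finset.mul_sum, Finset.mul_sum]
      have : alp κ (m + 1 - 0) * (((0 : ℕ) : ℂ) * bet κ 0) * ζ ^ 0 = 0 := by simp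
      rw [this, add_zero]
      rw [← Finset.sum_range_reflect]
      apply Finset.sum_congr rfl
      intro k hk
      rw [Finset.mem_range] at hk
      obtain ⟨j, rfl⟩ : ∃ j, m = k + j := ⟨m - k, by omega⟩
      have e0 : k + j + 1 - 1 - k = j := by omega
      have e1 : k + j + 1 - (j + 1) = k := by omega
      have e2 : k + j - k = j := by omega
      rw [e0, e1, e2]
      simp only [star_mul', bet, alp_succ, star_star, star_pow]
      have hn := nc_ne j
      have e3 : star (-(Complex.I * κ) / ((j : ℂ) + 1)) = Complex.I * κ / ((j : ℂ) + 1) := by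
        simp [Complex.star_def]
      rw [e3]
      have e4 : ζ ^ (k + j) * star ζ ^ k = ζ ^ j := by
        rw [pow_add, mul_right_comm, ← mul_pow, hζ1, one_pow, one_mul]
      push_cast
      calc alp κ k * (((j : ℂ) + 1) * (Complex.I * κ / ((j : ℂ) + 1) * star (gam κ j))) * ζ ^ (j + 1)
          = alp κ k * (Complex.I * κ * star (gam κ j)) * (ζ * ζ ^ j) := by
            field_simp
            ring
        _ = Complex.I * κ * ζ * (ζ ^ (k + j) * (star (gam κ j) * alp κ k * star ζ ^ k)) := by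
            rw [← e4]; ring
    rw [s1, s2, s3]
  have hn : ‖((m : ℂ) + 1) * Fco κ ζ (m + 1)‖ ≤ C := by
    rw [key]
    refine le_trans (norm_add_le _ _) ?_
    rw [norm_mul, norm_mul, norm_mul, norm_mul, norm_mul, norm_neg, norm_mul, norm_pow, hζ,
      norm_star, Complex.norm_I, one_pow, Complex.norm_real, Real.norm_eq_abs]
    have := hG m
    have h0 := norm_nonneg (Gco κ ζ m)
    have hk0 := abs_nonneg κ
    nlinarith
  have hm : ‖((m : ℂ) + 1)‖ = (m : ℝ) + 1 := by
    have : ((m : ℂ) + 1) = ((m + 1 : ℕ) : ℂ) := by push_cast; ring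
    rw [this, Complex.norm_natCast]
    push_cast; ring
  rw [norm_mul, hm] at hn
  rw [le_div_iff₀ (by positivity)]
  push_cast
  linarith

end Pool.Agent.H26.U
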