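import Pool.Agent.H26.U.GBD

/-!
# Project U: PSB, the partial sums
-/

namespace Pool.Agent.H26.U

open Matrix

theorem sum_alp_eq (κ : ℝ) (k : ℕ) (h : ∀ j, alp κ (j + 1) = gam κ (j + 1) - gam κ j) :
    ∑ j ∈ Finset.range (k + 1), alp κ j = gam κ k := by
  induction k with
  | zero => simp [alp_zero, gam_zero]
  | succ k ih =>
    rw [Finset.sum_range_succ, ih, h]
    ring

theorem sum_bet_eq (κ : ℝ) (k : ℕ) (h : ∀ j, alp κ (j + 1) = gam κ (j + 1) - gam κ j) :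
    ∑ j ∈ Finset.range (k + 1), bet κ j = star (gam κ k) := by
  rw [← sum_alp_eq κ k h, star_sum]
  rfl

theorem tel (b : ℕ → ℂ) (ζ : ℂ) (k m : ℕ) :
    (1 - ζ) * ∑ i ∈ Finset.range m, b (k + 1 + i) * ζ ^ (k + 1 + i) =
      b (k + 1) * ζ ^ (k + 1) - b (k + m + 1) * ζ ^ (k + m + 1) +
      ∑ i ∈ Finset.range m, (b (k + i + 2) - b (k + i + 1)) * ζ ^ (k + i + 2) := by
  induction m with
  | zero => simp
  | succ m ih =>
    rw [Finset.sum_range_succ, mul_add, ih, Finset.sum_range_succ _ m]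
    have e1 : k + 1 + m = k + m + 1 := by ring
    have e2 : k + (m + 1) + 1 = k + m + 2 := by ring
    rw [e1, e2]
    ring

theorem tel_inv (k m : ℕ) :
    ∑ i ∈ Finset.range m, 1 / ((((k + i : ℕ) : ℝ) + 1) * (((k + i : ℕ) : ℝ) + 2)) =
      1 / ((k : ℝ) + 1) - 1 / ((k : ℝ) + m + 1) := by
  induction m with
  | zero => simp
  | succ m ih =>
    rw [Finset.sum_range_succ, ih]
    push_cast
    field_simp
    ring

theorem PSB (h1 : S_GAM) : S_PSB := by
  refine ⟨6, ?_⟩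
  intro κ hκ ζ hζ k
  obtain ⟨hg, hag, ha, hb⟩ := h1 κ hκ
  obtain ⟨δ, hδ⟩ : ∃ δ : ℝ, δ = ‖1 - ζ‖ := ⟨_, rfl⟩
  have hδ0 : 0 ≤ δ := by rw [hδ]; exact norm_nonneg _
  -- step 1
  have s1 : ∀ k : ℕ, ‖∑ j ∈ Finset.range (k + 1), bet κ j * ζ ^ j‖ ≤ 2 * (1 + k * δ) := by
    intro k
    have e1 := abel_sum (fun j => ζ ^ j) (fun j => bet κ j) k
    have e2 : ∑ j ∈ Finset.range (k + 1), bet κ j * ζ ^ j =
        ∑ j ∈ Finset.range (k + 1), ζ ^ j * bet κ j := by
      apply Finset.sum_congr rfl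
      intro j _
      ring
    rw [e2, e1]
    have b1 : ‖ζ ^ k * ∑ j ∈ Finset.range (k + 1), bet κ j‖ ≤ 2 := by
      rw [norm_mul, norm_pow, hζ, one_pow, one_mul, sum_bet_eq κ k hag, norm_star]
      exact hg k
    have b2 : ‖∑ j ∈ Finset.range k, (ζ ^ j - ζ ^ (j + 1)) *
        ∑ i ∈ Finset.range (j + 1), bet κ i‖ ≤ k * (δ * 2) := by
      refine le_trans (norm_sum_le _ _) ?_
      have : ∀ j ∈ Finset.range k, ‖(ζ ^ j - ζ ^ (j + 1)) *
        ∑ i ∈ Finset.range (j + 1), bet κ i‖ ≤ δ * 2 := by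
        intro j _
        rw [sum_bet_eq κ j hag, norm_mul, norm_star]
        have e3 : ζ ^ j - ζ ^ (j + 1) = ζ ^ j * (1 - ζ) := by ring
        rw [e3, norm_mul, norm_pow, hζ, one_pow, one_mul, ← hδ]
        exact mul_le_mul_of_nonneg_left (hg j) hδ0
      refine le_trans (Finset.sum_le_sum this) ?_
      rw [Finset.sum_const, Finset.card_range, nsmul_eq_mul]
    have := norm_add_le_of_le b1 b2
    linarith
  -- step 2
  have s2 : ∀ k m : ℕ, δ * ‖∑ i ∈ Finset.range m, bet κ (k + 1 + i) * ζ ^ (k + 1 + i)‖ ≤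
      2 / ((k : ℝ) + 1) := by
    intro k m
    rw [hδ, ← norm_mul, tel]
    have hk : (0 : ℝ) < (k : ℝ) + 1 := by positivity
    have b1 : ‖bet κ (k + 1) * ζ ^ (k + 1)‖ ≤ 1 / (2 * ((k : ℝ) + 1)) := by
      rw [norm_mul, norm_pow, hζ, one_pow, mul_one, bet, norm_star]
      exact ha k
    have b2 : ‖bet κ (k + m + 1) * ζ ^ (k + m + 1)‖ ≤ 1 / (2 * ((k : ℝ) + 1)) := by
      rw [norm_mul, norm_pow, hζ, one_pow, mul_one, bet, norm_star]
      refine le_trans (ha (k + m)) ?_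
      apply one_div_le_one_div_of_le (by positivity)
      push_cast
      have : (0 : ℝ) ≤ m := by positivity
      linarith
    have b3 : ‖∑ i ∈ Finset.range m, (bet κ (k + i + 2) - bet κ (k + i + 1)) * ζ ^ (k + i + 2)‖ ≤
        1 / ((k : ℝ) + 1) := by
      refine le_trans (norm_sum_le _ _) ?_
      have : ∀ i ∈ Finset.range m, ‖(bet κ (k + i + 2) - bet κ (k + i + 1)) * ζ ^ (k + i + 2)‖ ≤
          1 / ((((k + i : ℕ) : ℝ) + 1) * (((k + i : ℕ) : ℝ) + 2)) := by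
        intro i _
        rw [norm_mul, norm_pow, hζ, one_pow, mul_one]
        exact hb (k + i)
      refine le_trans (Finset.sum_le_sum this) ?_
      rw [tel_inv]
      have : (0 : ℝ) ≤ 1 / ((k : ℝ) + m + 1) := by positivity
      linarith
    rw [← norm_neg (bet κ (k + m + 1) * ζ ^ (k + m + 1))] at b2
    have b4 := norm_add_le_of_le (norm_add_le_of_le b1 b2) b3
    rw [← sub_eq_add_neg] at b4
    have e : 1 / (2 * ((k : ℝ) + 1)) + 1 / (2 * ((k : ℝ) + 1)) + 1 / ((k : ℝ) + 1) =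
        2 / ((k : ℝ) + 1) := by field_simp; norm_num
    rw [e] at b4
    exact b4
  rcases hδ0.eq_or_lt with h0 | h0
  · have := s1 k
    rw [← h0] at this
    linarith
  · obtain ⟨k1, hk1⟩ : ∃ k1 : ℕ, k1 = ⌊1 / δ⌋₊ := ⟨_, rfl⟩
    have hk2 : (k1 : ℝ) ≤ 1 / δ := by rw [hk1]; exact Nat.floor_le (by positivity)
    have hk3 : 1 / δ < (k1 : ℝ) + 1 := by rw [hk1]; exact Nat.lt_floor_add_one _
    have hk4 : (k1 : ℝ) * δ ≤ 1 := by
      rwa [le_div_iff₀ h0] at hk2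
    have hk5 : 1 < ((k1 : ℝ) + 1) * δ := by
      rwa [div_lt_iff₀ h0] at hk3
    rcases le_total k k1 with h | h
    · have := s1 k
      have hc : (k : ℝ) ≤ k1 := by exact_mod_cast h
      nlinarith
    · obtain ⟨m, rfl⟩ : ∃ m, k = k1 + m := ⟨k - k1, by omega⟩
      have e1 : ∑ j ∈ Finset.range (k1 + m + 1), bet κ j * ζ ^ j =
          ∑ j ∈ Finset.range (k1 + 1), bet κ j * ζ ^ j +
          ∑ i ∈ Finset.range m, bet κ (k1 + 1 + i) * ζ ^ (k1 + 1 + i) := by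
        rw [show k1 + m + 1 = (k1 + 1) + m by ring, Finset.sum_range_add]
      rw [e1]
      have b1 := s1 k1
      have b2 := s2 k1 m
      have b3 : ‖∑ i ∈ Finset.range m, bet κ (k1 + 1 + i) * ζ ^ (k1 + 1 + i)‖ ≤ 2 := by
        by_contra hcon
        push Not at hcon
        have : δ * 2 < δ * ‖∑ i ∈ Finset.range m, bet κ (k1 + 1 + i) * ζ ^ (k1 + 1 + i)‖ :=
          mul_lt_mul_of_pos_left hcon h0
        have h5 : 2 / ((k1 : ℝ) + 1) ≤ δ * 2 := by
          rw [div_le_iff₀ (by positivity)]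
          linarith
        linarith
      have := norm_add_le_of_le b1 b3
      linarith

end Pool.Agent.H26.U
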