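import Pool.Agent.H26.U.Stmts

/-!
# Project U: SER, the binomial series of `(1 - z) ^ (i κ)`
-/

namespace Pool.Agent.H26.U

open Matrix

theorem alp_zero (κ : ℝ) : alp κ 0 = 1 := rfl

theorem alp_succ (κ : ℝ) (j : ℕ) :
    alp κ (j + 1) = -(Complex.I * κ) / ((j : ℂ) + 1) * gam κ j := rfl

theorem gam_zero (κ : ℝ) : gam κ 0 = 1 := by simp [gam]

theorem gam_succ (κ : ℝ) (j : ℕ) :
    gam κ (j + 1) = gam κ j * (1 - Complex.I * κ / ((j : ℂ) + 1)) := by
  simp [gam, Finset.prod_range_succ]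

theorem nc_ne (j : ℕ) : ((j : ℂ) + 1) ≠ 0 := by
  have : ((j + 1 : ℕ) : ℂ) ≠ 0 := by exact_mod_cast Nat.succ_ne_zero j
  simpa using this

theorem alp_rec (κ : ℝ) (j : ℕ) :
    ((j : ℂ) + 1) * alp κ (j + 1) = alp κ j * ((j : ℂ) - Complex.I * κ) := by
  cases j with
  | zero => simp [alp_succ, gam_zero, alp_zero]
  | succ m =>
    have h1 := nc_ne m
    have h2 := nc_ne (m + 1)
    rw [alp_succ κ (m + 1), alp_succ κ m, gam_succ]
    push_cast at h2 ⊢
    field_simp

theorem choose_rec (a : ℂ) (n : ℕ) :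
    ((n : ℂ) + 1) * Ring.choose a (n + 1) = Ring.choose a n * (a - n) := by
  have h1 := Ring.descPochhammer_eq_factorial_smul_choose a (n + 1)
  have h2 := Ring.descPochhammer_eq_factorial_smul_choose a n
  rw [descPochhammer_succ_right, Polynomial.smeval_mul, h2] at h1
  simp only [Polynomial.smeval_sub, Polynomial.smeval_X, pow_one, Polynomial.smeval_natCast,
    pow_zero, nsmul_eq_mul, mul_one] at h1
  have hf : (Nat.factorial n : ℂ) ≠ 0 := by exact_mod_cast Nat.factorial_ne_zero n
  rw [Nat.factorial_succ] at h1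
  push_cast at h1
  apply mul_left_cancel₀ hf
  linear_combination -h1

theorem alp_eq (κ : ℝ) (n : ℕ) :
    alp κ n = (-1) ^ n * Ring.choose (Complex.I * (κ : ℂ)) n := by
  induction n with
  | zero => simp [alp_zero]
  | succ n ih =>
    apply mul_left_cancel₀ (nc_ne n)
    rw [alp_rec, ih, mul_left_comm, choose_rec, pow_succ]
    ring

theorem SER : S_SER := by
  intro κ z hz
  have h := Complex.one_add_cpow_hasFPowerSeriesOnBall_zero (a := Complex.I * (κ : ℂ))
  have hz' : -z ∈ Metric.eball (0 : ℂ) 1 := by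
    rw [← ENNReal.ofReal_one, Metric.eball_ofReal]
    simpa using hz
  have h2 := h.hasSum hz'
  have e1 : (1 : ℂ) + (0 + -z) = 1 - z := by ring
  rw [e1] at h2
  have e2 : (fun k => alp κ k * z ^ k) =
      fun k => (binomialSeries ℂ (Complex.I * (κ : ℂ)) k) fun _ => -z := by
    funext k
    rw [binomialSeries_apply, alp_eq, List.prod_ofFn]
    simp only [Finset.prod_const, Finset.card_univ, Fintype.card_fin, smul_eq_mul]
    rw [neg_pow]
    ring
  rw [e2]
  exact h2

end Pool.Agent.H26.U
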