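import Pool.Agent.H26.U.Ez

/-!
# Project U: VBD, the sum on the unit circle
-/

namespace Pool.Agent.H26.U

open Matrix

theorem sum_inv_sq_le (m : ℕ) : ∑ v ∈ Finset.range m, 1 / ((v : ℝ) + 1) ^ 2 ≤ 2 - 1 / (m : ℝ) := by
  induction m with
  | zero => simp
  | succ m ih =>
    rw [Finset.sum_range_succ]
    rcases Nat.eq_zero_or_pos m with h | h
    · subst h; norm_num
    · have hm : (0 : ℝ) < m := by exact_mod_cast h
      have h1 : 1 / ((m : ℝ) + 1) ^ 2 ≤ 1 / (m : ℝ) - 1 / ((m : ℝ) + 1) := by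
        rw [div_sub_div _ _ (by positivity) (by positivity), div_le_div_iff₀ (by positivity)
          (by positivity)]
        nlinarith
      push_cast
      linarith

theorem norm_cpow_I_le (z : ℂ) (κ : ℝ) (hκ : |κ| ≤ 1 / 4) : ‖z ^ (Complex.I * (κ : ℂ))‖ ≤ 3 := by
  refine le_trans (Complex.norm_cpow_le z _) ?_
  have h1 : (Complex.I * (κ : ℂ)).re = 0 := by simp
  have h2 : (Complex.I * (κ : ℂ)).im = κ := by simp
  rw [h1, h2, Real.rpow_zero, one_div, ← Real.exp_neg]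
  have h3 : -(Complex.arg z * κ) ≤ 1 := by
    have h4 := Complex.abs_arg_le_pi z
    have h5 : |Complex.arg z * κ| ≤ Real.pi * (1 / 4) := by
      rw [abs_mul]
      exact mul_le_mul h4 hκ (abs_nonneg _) Real.pi_pos.le
    have h6 := neg_abs_le (Complex.arg z * κ)
    have h7 := Real.pi_lt_four
    linarith
  calc Real.exp (-(Complex.arg z * κ)) ≤ Real.exp 1 := Real.exp_le_exp.mpr h3
    _ ≤ 3 := by
      have := Real.exp_one_lt_d9
      linarith

theorem norm_lzterm_le {n : ℕ} [NeZero n] (κ ρ : ℝ) (hκ : |κ| ≤ 1 / 4) (X u : ZMod n) :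
    ‖lzterm κ ρ X u‖ ≤ 9 := by
  rw [lzterm, norm_mul]
  have h1 := norm_cpow_I_le (1 - (ρ : ℂ) * ez u) κ hκ
  have h2 := norm_cpow_I_le (1 - (ρ : ℂ) * ez (u - X)) (-κ) (by rwa [abs_neg])
  have h3 : Complex.I * ((-κ : ℝ) : ℂ) = -(Complex.I * (κ : ℂ)) := by push_cast; ring
  rw [h3] at h2
  have h4 := norm_nonneg ((1 - (ρ : ℂ) * ez (u - X)) ^ (-(Complex.I * (κ : ℂ))))
  nlinarith [norm_nonneg ((1 - (ρ : ℂ) * ez u) ^ (Complex.I * (κ : ℂ)))]

theorem sum_zmod_erase (n : ℕ) [NeZero n] (g : ℕ → ℝ) :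
    ∑ u ∈ Finset.univ.erase (0 : ZMod n), g u.val = ∑ v ∈ Finset.range (n - 1), g (v + 1) := by
  have hn := Nat.pos_of_ne_zero (NeZero.ne n)
  symm
  apply Finset.sum_bij (fun v _ => ((v + 1 : ℕ) : ZMod n))
  · intro v hv
    rw [Finset.mem_range] at hv
    rw [Finset.mem_erase]
    refine ⟨?_, Finset.mem_univ _⟩
    intro h
    have := congrArg ZMod.val h
    rw [ZMod.val_natCast, Nat.mod_eq_of_lt (by omega), ZMod.val_zero] at this
    omega
  · intro a ha b hb h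
    rw [Finset.mem_range] at ha hb
    have := congrArg ZMod.val h
    rw [ZMod.val_natCast, ZMod.val_natCast, Nat.mod_eq_of_lt (by omega),
      Nat.mod_eq_of_lt (by omega)] at this
    omega
  · intro u hu
    rw [Finset.mem_erase] at hu
    have h1 : u.val ≠ 0 := by
      intro h
      exact hu.1 ((ZMod.val_eq_zero u).mp h)
    have h2 := ZMod.val_lt u
    refine ⟨u.val - 1, by rw [Finset.mem_range]; omega, ?_⟩
    rw [show u.val - 1 + 1 = u.val by omega, ZMod.natCast_zmod_val]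
  · intro v hv
    rw [Finset.mem_range] at hv
    rw [ZMod.val_natCast, Nat.mod_eq_of_lt (by omega)]

theorem sum_inv_norm_sq (n : ℕ) [NeZero n] :
    ∑ u ∈ Finset.univ.erase (0 : ZMod n), 1 / ‖1 - ez u‖ ^ 2 ≤ (n : ℝ) ^ 2 / 4 := by
  have hn0 := Nat.pos_of_ne_zero (NeZero.ne n)
  have hn : (0 : ℝ) < n := by exact_mod_cast hn0
  have h1 : ∀ u ∈ Finset.univ.erase (0 : ZMod n), 1 / ‖1 - ez u‖ ^ 2 ≤
      (fun v : ℕ => (n : ℝ) ^ 2 / 16 * (1 / (v : ℝ) ^ 2 + 1 / ((n : ℝ) - v) ^ 2)) u.val := by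
    intro u hu
    rw [Finset.mem_erase] at hu
    have hv1 : 0 < u.val := Nat.pos_of_ne_zero fun h => hu.1 ((ZMod.val_eq_zero u).mp h)
    have hv2 := ZMod.val_lt u
    have h2 := norm_one_sub_ez_ge u
    obtain ⟨a, ha⟩ : ∃ a : ℝ, a = u.val := ⟨_, rfl⟩
    have ha1 : 0 < a := by rw [ha]; exact_mod_cast hv1
    have ha2 : 0 < (n : ℝ) - a := by
      have : a < n := by rw [ha]; exact_mod_cast hv2
      linarith
    rw [← ha] at h2
    simp only
    rw [← ha]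
    obtain ⟨b, hb⟩ : ∃ b : ℝ, b = (n : ℝ) - a := ⟨_, rfl⟩
    rw [← hb] at h2 ha2 ⊢
    have hmin : 0 < min a b := lt_min ha1 ha2
    have h3 : 1 / ‖1 - ez u‖ ^ 2 ≤ 1 / (4 * min a b / n) ^ 2 := by
      apply one_div_le_one_div_of_le (by positivity)
      exact pow_le_pow_left₀ (by positivity) h2 2
    refine le_trans h3 ?_
    have h4 : 1 / (4 * min a b / n) ^ 2 = (n : ℝ) ^ 2 / 16 * (1 / (min a b) ^ 2) := by
      field_simp
      norm_num
    rw [h4]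
    apply mul_le_mul_of_nonneg_left _ (by positivity)
    rcases le_total a b with h | h
    · rw [min_eq_left h]
      have : 0 ≤ 1 / b ^ 2 := by positivity
      linarith
    · rw [min_eq_right h]
      have : 0 ≤ 1 / a ^ 2 := by positivity
      linarith
  refine le_trans (Finset.sum_le_sum h1) ?_
  rw [sum_zmod_erase n (fun v : ℕ => (n : ℝ) ^ 2 / 16 * (1 / (v : ℝ) ^ 2 + 1 / ((n : ℝ) - v) ^ 2))]
  rw [← Finset.mul_sum, Finset.sum_add_distrib]
  have h5 : ∑ v ∈ Finset.range (n - 1), 1 / (((v + 1 : ℕ) : ℝ)) ^ 2 ≤ 2 := by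
    have := sum_inv_sq_le (n - 1)
    have h6 : (0 : ℝ) ≤ 1 / ((n - 1 : ℕ) : ℝ) := by positivity
    push_cast
    linarith
  have h7 : ∑ v ∈ Finset.range (n - 1), 1 / ((n : ℝ) - ((v + 1 : ℕ) : ℝ)) ^ 2 ≤ 2 := by
    rw [← Finset.sum_range_reflect]
    refine le_trans (le_of_eq ?_) h5
    apply Finset.sum_congr rfl
    intro v hv
    rw [Finset.mem_range] at hv
    congr 2
    have : n - 1 - 1 - v + 1 = n - 1 - v := by omega
    rw [this, Nat.cast_sub (by omega), Nat.cast_sub (by omega)]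
    push_cast
    ring
  have h8 : (0 : ℝ) ≤ (n : ℝ) ^ 2 / 16 := by positivity
  calc (n : ℝ) ^ 2 / 16 * (∑ v ∈ Finset.range (n - 1), 1 / (((v + 1 : ℕ) : ℝ)) ^ 2 +
      ∑ v ∈ Finset.range (n - 1), 1 / ((n : ℝ) - ((v + 1 : ℕ) : ℝ)) ^ 2)
      ≤ (n : ℝ) ^ 2 / 16 * (2 + 2) := mul_le_mul_of_nonneg_left (add_le_add h5 h7) h8
    _ = (n : ℝ) ^ 2 / 4 := by ring

/-- translated version -/
theorem sum_inv_norm_sq' (n : ℕ) [NeZero n] (X : ZMod n) :
    ∑ u ∈ Finset.univ.erase X, 1 / ‖1 - ez (u - X)‖ ^ 2 ≤ (n : ℝ) ^ 2 / 4 := by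
  refine le_trans (le_of_eq ?_) (sum_inv_norm_sq n)
  apply Finset.sum_bij (fun u _ => u - X)
  · intro u hu
    rw [Finset.mem_erase] at hu ⊢
    exact ⟨sub_ne_zero.mpr hu.1, Finset.mem_univ _⟩
  · intro a _ b _ h
    exact sub_left_injective h
  · intro u hu
    rw [Finset.mem_erase] at hu
    refine ⟨u + X, ?_, by ring⟩
    rw [Finset.mem_erase]
    refine ⟨?_, Finset.mem_univ _⟩
    intro h
    apply hu.1
    simpa using h
  · intro u _
    rfl

theorem VBD (h1 : S_VRH) (h2 : S_SEC) : S_VBD := by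
  obtain ⟨C1, hC1⟩ := h1
  obtain ⟨C2, hC2⟩ := h2
  refine ⟨3 * (C1 + 18) + |C2| / 2, ?_⟩
  intro κ hκ n _ hn x hx1 hx2 X hX
  have hn0 : (0 : ℝ) < n := by positivity
  have hn3 : (3 : ℝ) ≤ n := by exact_mod_cast hn
  obtain ⟨S, hS⟩ : ∃ S, S = (Finset.univ.erase (0 : ZMod n)).erase X := ⟨_, rfl⟩
  have hS0 : ∀ u ∈ S, u ≠ 0 ∧ u ≠ X := by
    intro u hu
    rw [hS, Finset.mem_erase, Finset.mem_erase] at hu
    exact ⟨hu.2.1, hu.1⟩
  rw [← hS]
  -- regularised sums over S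
  have hreg : ∀ h : ℝ, 1 / (n : ℝ) ≤ h → h ≤ 2 / 3 →
      ‖∑ u ∈ S, ez ((x : ZMod n) * u) * lzterm κ (1 - h) X u‖ ≤ C1 + 18 := by
    intro h ha hb
    have e1 := hC1 κ hκ n hn x hx1 hx2 X h ha hb
    have e2 : ∑ u : ZMod n, ez ((x : ZMod n) * u) * lzterm κ (1 - h) X u =
        ez ((x : ZMod n) * 0) * lzterm κ (1 - h) X 0 +
        (ez ((x : ZMod n) * X) * lzterm κ (1 - h) X X +
        ∑ u ∈ S, ez ((x : ZMod n) * u) * lzterm κ (1 - h) X u) := by
      rw [hS, Finset.add_sum_erase _ (fun u => ez ((x : ZMod n) * u) * lzterm κ (1 - h) X u)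
        (by rw [Finset.mem_erase]; exact ⟨hX, Finset.mem_univ _⟩),
        Finset.add_sum_erase _ (fun u => ez ((x : ZMod n) * u) * lzterm κ (1 - h) X u)
        (Finset.mem_univ _)]
    have b1 : ∀ u : ZMod n, ‖ez ((x : ZMod n) * u) * lzterm κ (1 - h) X u‖ ≤ 9 := by
      intro u
      rw [norm_mul, norm_ez, one_mul]
      exact norm_lzterm_le _ _ hκ _ _
    have e3 : ∑ u ∈ S, ez ((x : ZMod n) * u) * lzterm κ (1 - h) X u =
        ∑ u : ZMod n, ez ((x : ZMod n) * u) * lzterm κ (1 - h) X u +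
        (-(ez ((x : ZMod n) * 0) * lzterm κ (1 - h) X 0) +
        -(ez ((x : ZMod n) * X) * lzterm κ (1 - h) X X)) := by
      rw [e2]; ring
    rw [e3]
    have b2 := b1 0
    have b3 := b1 X
    rw [← norm_neg] at b2 b3
    have b4 := norm_add_le_of_le e1 (norm_add_le_of_le b2 b3)
    linarith
  have r1 := hreg (1 / n) le_rfl (by
    rw [div_le_iff₀ hn0]; linarith)
  have r2 := hreg (2 * (1 / n)) (by
    have : (0 : ℝ) < 1 / n := by positivity
    linarith) (by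
    rw [mul_one_div, div_le_iff₀ hn0]; linarith)
  obtain ⟨h, hh⟩ : ∃ h : ℝ, h = 1 / n := ⟨_, rfl⟩
  have hh0 : 0 < h := by rw [hh]; positivity
  have hh1 : h ≤ 1 / 3 := by
    rw [hh]
    exact one_div_le_one_div_of_le (by norm_num) hn3
  rw [← hh] at r1 r2
  have hsec : ∀ u ∈ S, ‖ez ((x : ZMod n) * u) * (lzterm κ 1 X u - 2 * lzterm κ (1 - h) X u +
      lzterm κ (1 - 2 * h) X u)‖ ≤
      |C2| * h ^ 2 * (1 / ‖1 - ez u‖ ^ 2 + 1 / ‖1 - ez (u - X)‖ ^ 2) := by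
    intro u hu
    obtain ⟨hu0, huX⟩ := hS0 u hu
    rw [norm_mul, norm_ez, one_mul]
    have := hC2 κ hκ (ez u) (ez (u - X)) (norm_ez _) (norm_ez _)
      (fun h => hu0 ((ez_eq_one_iff u).mp h))
      (fun h => huX (sub_eq_zero.mp ((ez_eq_one_iff _).mp h))) h hh0 hh1
    have e : lzterm κ 1 X u - 2 * lzterm κ (1 - h) X u + lzterm κ (1 - 2 * h) X u =
      (1 - ez u) ^ (Complex.I * (κ : ℂ)) * (1 - ez (u - X)) ^ (-(Complex.I * (κ : ℂ)))
    - 2 * ((1 - ((1 - h : ℝ) : ℂ) * ez u) ^ (Complex.I * (κ : ℂ)) *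
        (1 - ((1 - h : ℝ) : ℂ) * ez (u - X)) ^ (-(Complex.I * (κ : ℂ))))
    + (1 - ((1 - 2 * h : ℝ) : ℂ) * ez u) ^ (Complex.I * (κ : ℂ)) *
        (1 - ((1 - 2 * h : ℝ) : ℂ) * ez (u - X)) ^ (-(Complex.I * (κ : ℂ))) := by
      simp only [lzterm, Complex.ofReal_one, one_mul]
    rw [e]
    refine le_trans this ?_
    apply mul_le_mul_of_nonneg_right _ (by positivity)
    exact mul_le_mul_of_nonneg_right (le_abs_self _) (by positivity)
  have hD : ‖∑ u ∈ S, ez ((x : ZMod n) * u) * (lzterm κ 1 X u - 2 * lzterm κ (1 - h) X u +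
      lzterm κ (1 - 2 * h) X u)‖ ≤ |C2| / 2 := by
    refine le_trans (norm_sum_le _ _) ?_
    refine le_trans (Finset.sum_le_sum hsec) ?_
    rw [← Finset.mul_sum, Finset.sum_add_distrib]
    have s1 : ∑ u ∈ S, 1 / ‖1 - ez u‖ ^ 2 ≤ (n : ℝ) ^ 2 / 4 := by
      refine le_trans ?_ (sum_inv_norm_sq n)
      apply Finset.sum_le_sum_of_subset_of_nonneg
      · rw [hS]; exact Finset.erase_subset _ _
      · intro i _ _; positivity
    have s2 : ∑ u ∈ S, 1 / ‖1 - ez (u - X)‖ ^ 2 ≤ (n : ℝ) ^ 2 / 4 := by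
      refine le_trans ?_ (sum_inv_norm_sq' n X)
      apply Finset.sum_le_sum_of_subset_of_nonneg
      · rw [hS, Finset.erase_right_comm]; exact Finset.erase_subset _ _
      · intro i _ _; positivity
    have h0 : 0 ≤ |C2| * h ^ 2 := by positivity
    calc |C2| * h ^ 2 * (∑ u ∈ S, 1 / ‖1 - ez u‖ ^ 2 + ∑ u ∈ S, 1 / ‖1 - ez (u - X)‖ ^ 2)
        ≤ |C2| * h ^ 2 * ((n : ℝ) ^ 2 / 4 + (n : ℝ) ^ 2 / 4) :=
          mul_le_mul_of_nonneg_left (add_le_add s1 s2) h0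
      _ = |C2| / 2 := by
          rw [hh]; field_simp; ring
  have e4 : ∑ u ∈ S, ez ((x : ZMod n) * u) * lzterm κ 1 X u =
      ∑ u ∈ S, ez ((x : ZMod n) * u) * (lzterm κ 1 X u - 2 * lzterm κ (1 - h) X u +
      lzterm κ (1 - 2 * h) X u) +
      (2 * ∑ u ∈ S, ez ((x : ZMod n) * u) * lzterm κ (1 - h) X u +
      -∑ u ∈ S, ez ((x : ZMod n) * u) * lzterm κ (1 - 2 * h) X u) := by
    rw [Finset.mul_sum, ← Finset.sum_neg_distrib, ← Finset.sum_add_distrib,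
      ← Finset.sum_add_distrib]
    apply Finset.sum_congr rfl
    intro u _
    ring
  rw [e4]
  have r1' : ‖2 * ∑ u ∈ S, ez ((x : ZMod n) * u) * lzterm κ (1 - h) X u‖ ≤ 2 * (C1 + 18) := by
    rw [norm_mul]
    have : ‖(2 : ℂ)‖ = 2 := by norm_num
    rw [this]
    linarith
  rw [← norm_neg] at r2
  have := norm_add_le_of_le hD (norm_add_le_of_le r1' r2)
  linarith

end Pool.Agent.H26.U
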