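import Pool.Agent.H26.U.Ez
import Pool.Agent.H26.U.GAM
import Pool.Agent.H26.U.GBD

/-!
# Project U: VRH, the regularised sum
-/

namespace Pool.Agent.H26.U

open Matrix

theorem star_gam (κ : ℝ) (j : ℕ) : star (gam κ j) = gam (-κ) j := by
  induction j with
  | zero => simp [gam_zero]
  | succ j ih =>
    rw [gam_succ, gam_succ, star_mul', ih]
    congr 1
    simp

theorem bet_eq (κ : ℝ) (j : ℕ) : bet κ j = alp (-κ) j := by
  rw [bet]
  cases j with
  | zero => simp [alp_zero]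
  | succ j =>
    rw [alp_succ, alp_succ, star_mul', star_gam]
    congr 1
    simp

theorem norm_alp_le_one (κ : ℝ) (hκ : |κ| ≤ 1 / 4) (j : ℕ) : ‖alp κ j‖ ≤ 1 := by
  cases j with
  | zero => simp [alp_zero]
  | succ j =>
    refine le_trans (norm_alp_succ_le κ hκ j) ?_
    rw [div_le_iff₀ (by positivity)]
    have : (0 : ℝ) ≤ j := by positivity
    linarith

theorem norm_ser_summable (κ : ℝ) (hκ : |κ| ≤ 1 / 4) (z : ℂ) (hz : ‖z‖ < 1) :
    Summable fun k => ‖alp κ k * z ^ k‖ := by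
  refine Summable.of_nonneg_of_le (fun _ => norm_nonneg _) ?_
    (summable_geometric_of_lt_one (norm_nonneg z) hz)
  intro k
  rw [norm_mul, norm_pow]
  have := norm_alp_le_one κ hκ k
  have h2 : 0 ≤ ‖z‖ ^ k := by positivity
  nlinarith

theorem lz_hasSum (hS : S_SER) (κ : ℝ) (hκ : |κ| ≤ 1 / 4) {n : ℕ} [NeZero n] (ρ : ℝ) (h0 : 0 ≤ ρ)
    (h1 : ρ < 1) (X u : ZMod n) :
    HasSum (fun c => Fco κ (ez (-X)) c * ρ ^ c * ez u ^ c) (lzterm κ ρ X u) := by
  have hn1 : ‖(ρ : ℂ) * ez u‖ < 1 := by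
    rw [norm_mul, norm_ez, mul_one, Complex.norm_real, Real.norm_eq_abs, abs_of_nonneg h0]
    exact h1
  have hn2 : ‖(ρ : ℂ) * ez (u - X)‖ < 1 := by
    rw [norm_mul, norm_ez, mul_one, Complex.norm_real, Real.norm_eq_abs, abs_of_nonneg h0]
    exact h1
  have a1 := hS κ _ hn1
  have a2 := hS (-κ) _ hn2
  have s1 := norm_ser_summable κ hκ _ hn1
  have s2 := norm_ser_summable (-κ) (by rwa [abs_neg]) _ hn2
  have hprod := tsum_mul_tsum_eq_tsum_sum_range_of_summable_norm s2 s1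
  have hsum := summable_norm_sum_mul_range_of_summable_norm s2 s1
  have hs := hsum.of_norm.hasSum
  rw [← hprod, a1.tsum_eq, a2.tsum_eq] at hs
  have e1 : (1 - (ρ : ℂ) * ez (u - X)) ^ (Complex.I * ((-κ : ℝ) : ℂ)) *
      (1 - (ρ : ℂ) * ez u) ^ (Complex.I * (κ : ℂ)) = lzterm κ ρ X u := by
    rw [lzterm, mul_comm]
    congr 2
    push_cast
    ring
  rw [e1] at hs
  suffices e0 : (fun c => Fco κ (ez (-X)) c * (ρ : ℂ) ^ c * ez u ^ c) = fun c : ℕ =>
      ∑ k ∈ Finset.range (c + 1), alp (-κ) k * ((ρ : ℂ) * ez (u - X)) ^ k *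
        (alp κ (c - k) * ((ρ : ℂ) * ez u) ^ (c - k)) by
    rw [e0]; exact hs
  funext c
  rw [Fco, Finset.sum_mul, Finset.sum_mul]
  apply Finset.sum_congr rfl
  intro k hk
  rw [Finset.mem_range] at hk
  obtain ⟨j, rfl⟩ : ∃ j, c = k + j := ⟨c - k, by omega⟩
  have e2 : k + j - k = j := by omega
  rw [e2, bet_eq, sub_eq_add_neg u X, ez_add]
  ring

theorem VRH (h1 : S_FBD) (h2 : S_SER) (h3 : S_GAM) : S_VRH := by
  obtain ⟨C, hC⟩ := h1
  refine ⟨4 * |C|, ?_⟩
  intro κ hκ n _ hn x hx1 hx2 X h ha hb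
  have hn0 : (0 : ℝ) < n := by positivity
  have hh0 : 0 < h := lt_of_lt_of_le (by positivity) ha
  obtain ⟨ρ, hρ⟩ : ∃ ρ : ℝ, ρ = 1 - h := ⟨_, rfl⟩
  have hρ0 : 0 ≤ ρ := by rw [hρ]; linarith
  have hρ1 : ρ < 1 := by rw [hρ]; linarith
  rw [← hρ]
  have hρn : ρ ^ n ≤ 1 / 2 := by
    have e1 : ρ ≤ Real.exp (-h) := by
      have := Real.add_one_le_exp (-h)
      rw [hρ]; linarith
    have e2 : ρ ^ n ≤ Real.exp (-h) ^ n := pow_le_pow_left₀ hρ0 e1 n
    rw [← Real.exp_nat_mul] at e2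
    have e3 : (n : ℝ) * (-h) ≤ -1 := by
      rw [div_le_iff₀ hn0] at ha
      nlinarith
    have e4 := Real.exp_le_exp.mpr e3
    have e5 : Real.exp (-1) ≤ 1 / 2 := by
      rw [Real.exp_neg, ← one_div]
      apply one_div_le_one_div_of_le (by norm_num)
      have := Real.add_one_le_exp (1 : ℝ)
      linarith
    linarith
  -- the sum as a series
  have hs : HasSum (fun c => ∑ u : ZMod n, ez ((x : ZMod n) * u) *
      (Fco κ (ez (-X)) c * ρ ^ c * ez u ^ c))
      (∑ u : ZMod n, ez ((x : ZMod n) * u) * lzterm κ ρ X u) := by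
    apply hasSum_sum
    intro u _
    exact (lz_hasSum h2 κ hκ ρ hρ0 hρ1 X u).mul_left _
  have e1 : ∀ c : ℕ, ∑ u : ZMod n, ez ((x : ZMod n) * u) * (Fco κ (ez (-X)) c * ρ ^ c * ez u ^ c) =
      Fco κ (ez (-X)) c * ρ ^ c * (if n ∣ x + c then (n : ℂ) else 0) := by
    intro c
    have e2 : ∀ u : ZMod n, ez ((x : ZMod n) * u) * (Fco κ (ez (-X)) c * ρ ^ c * ez u ^ c) =
        Fco κ (ez (-X)) c * ρ ^ c * ez (((x + c : ℕ) : ZMod n) * u) := by
      intro u
      rw [ez_natCast_mul, ez_natCast_mul, pow_add]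
      ring
    simp only [e2]
    rw [← Finset.mul_sum, sum_ez_mul]
    simp only [ZMod.natCast_eq_zero_iff]
  simp only [e1] at hs
  obtain ⟨V, hV⟩ : ∃ V, V = ∑ u : ZMod n, ez ((x : ZMod n) * u) * lzterm κ ρ X u := ⟨_, rfl⟩
  rw [← hV] at hs ⊢
  have hinj : Function.Injective fun i : ℕ => (n - x) + n * i := by
    intro a b hab
    simp only at hab
    have : n * a = n * b := by omega
    exact Nat.eq_of_mul_eq_mul_left (by omega) this
  have hs2 := (hinj.hasSum_iff (f := fun c => Fco κ (ez (-X)) c * ρ ^ c *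
    (if n ∣ x + c then (n : ℂ) else 0)) (a := V) (by
      intro c hc
      have : ¬ n ∣ x + c := by
        rintro ⟨q, hq⟩
        apply hc
        have hq0 : q ≠ 0 := by
          rintro rfl
          omega
        obtain ⟨i, rfl⟩ : ∃ i, q = i + 1 := ⟨q - 1, by omega⟩
        refine ⟨i, ?_⟩
        simp only
        rw [mul_add, mul_one] at hq
        omega
      simp [this])).mpr hs
  have hgeo : HasSum (fun i : ℕ => 2 * |C| * (ρ ^ n) ^ i) (2 * |C| * (1 - ρ ^ n)⁻¹) :=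
    (hasSum_geometric_of_lt_one (by positivity) (by linarith)).mul_left _
  have hfin := hs2.norm_le_of_bounded hgeo (by
    intro i
    simp only [Function.comp]
    have hd : n ∣ x + (n - x + n * i) := by
      refine ⟨i + 1, ?_⟩
      rw [mul_add, mul_one]
      omega
    rw [if_pos hd]
    obtain ⟨c, hc⟩ : ∃ c, c = n - x + n * i := ⟨_, rfl⟩
    rw [← hc]
    have hc1 : n ≤ 2 * c := by
      have : 0 ≤ n * i := Nat.zero_le _
      omega
    have hc2 : n * i ≤ c := by omega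
    have hF := hC κ hκ (ez (-X)) (norm_ez _) c (by omega)
    rw [norm_mul, norm_mul, norm_pow, Complex.norm_real, Real.norm_eq_abs, abs_of_nonneg hρ0,
      Complex.norm_natCast]
    have hc3 : (0 : ℝ) < c := by
      have : 0 < c := by omega
      exact_mod_cast this
    have hc4 : (n : ℝ) ≤ 2 * c := by exact_mod_cast hc1
    have hρc : ρ ^ c ≤ (ρ ^ n) ^ i := by
      rw [← pow_mul]
      exact pow_le_pow_of_le_one hρ0 hρ1.le hc2
    have hF2 : ‖Fco κ (ez (-X)) c‖ * n ≤ 2 * |C| := by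
      calc ‖Fco κ (ez (-X)) c‖ * n ≤ (|C| / c) * (2 * c) := by
            apply mul_le_mul _ hc4 hn0.le (by positivity)
            refine le_trans hF ?_
            exact div_le_div_of_nonneg_right (le_abs_self _) hc3.le
        _ = 2 * |C| := by field_simp
    calc ‖Fco κ (ez (-X)) c‖ * ρ ^ c * n = (‖Fco κ (ez (-X)) c‖ * n) * ρ ^ c := by ring
      _ ≤ 2 * |C| * (ρ ^ n) ^ i := mul_le_mul hF2 hρc (by positivity) (by positivity))
  refine le_trans hfin ?_
  have h4 : (1 - ρ ^ n)⁻¹ ≤ 2 := by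
    rw [inv_le_comm₀ (by linarith) (by norm_num)]
    linarith
  have h5 : 0 ≤ |C| := abs_nonneg _
  nlinarith

end Pool.Agent.H26.U
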