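import Mathlib
import Pool.Agent.H37.EtfDefs
import Pool.Agent.H54.Etf.Main

/-!
# Project U (MP_0c7934_co): definitions

Uniform existence of Hermitian conference matrices of order `2 ^ (k + 1) * n`, `n` odd squarefree,
`k ≥ k₀`.
-/

namespace Pool.Agent.H26.U

open Matrix

/-- periodic autocorrelation on a finite abelian group -/
noncomputable def acf {H : Type*} [AddCommGroup H] [Fintype H] (f : H → ℂ) (x : H) : ℂ :=
  ∑ y, f y * star (f (y - x))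

/-- `e(v / n)` for `v : ZMod n` -/
noncomputable def ez {n : ℕ} (v : ZMod n) : ℂ :=
  Complex.exp (2 * Real.pi * Complex.I * ((v.val : ℂ) / n))

/-- `sin (2 π v / n)` for `v : ZMod n` -/
noncomputable def sz {n : ℕ} (v : ZMod n) : ℝ := Real.sin (2 * Real.pi * ((v.val : ℝ) / n))

/-- a flat CAR system with `K` modes on the index type `ι`: flat matrices `φ_j` with the canonical
anticommutation relations (scaled), a hollow flat Hermitian `G` and a flat Hermitian `A`,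
all anticommuting -/
structure FlatCAR (K : ℕ) (ι : Type) [Fintype ι] [DecidableEq ι] where
  φ : Fin K → Matrix ι ι ℂ
  G : Matrix ι ι ℂ
  A : Matrix ι ι ℂ
  φ_norm : ∀ j a b, ‖φ j a b‖ = 1
  G_diag : ∀ a, G a a = 0
  G_norm : ∀ a b, a ≠ b → ‖G a b‖ = 1
  A_norm : ∀ a b, ‖A a b‖ = 1
  G_herm : Gᴴ = G
  A_herm : Aᴴ = A
  φφ : ∀ i j, φ i * φ j + φ j * φ i = 0
  φφH : ∀ i j, φ i * (φ j)ᴴ + (φ j)ᴴ * φ i =
    if i = j then (2 * (Fintype.card ι : ℂ)) • (1 : Matrix ι ι ℂ) else 0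
  GG : G * G = ((Fintype.card ι : ℂ) - 1) • (1 : Matrix ι ι ℂ)
  AA : A * A = (Fintype.card ι : ℂ) • (1 : Matrix ι ι ℂ)
  φG : ∀ j, φ j * G + G * φ j = 0
  φA : ∀ j, φ j * A + A * φ j = 0
  GA : G * A + A * G = 0

/-- the seed: four `8 × 8` matrices -/
structure IsSeed (φ A B C : Matrix (Fin 8) (Fin 8) ℂ) : Prop where
  φ_norm : ∀ a b, ‖φ a b‖ = 1
  A_norm : ∀ a b, ‖A a b‖ = 1
  C_norm : ∀ a b, ‖C a b‖ = 1
  B_diag : ∀ a, B a a = 0
  B_norm : ∀ a b, a ≠ b → ‖B a b‖ = 1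
  A_herm : Aᴴ = A
  B_herm : Bᴴ = B
  C_herm : Cᴴ = C
  AA : A * A = (8 : ℂ) • (1 : Matrix (Fin 8) (Fin 8) ℂ)
  BB : B * B = (7 : ℂ) • (1 : Matrix (Fin 8) (Fin 8) ℂ)
  CC : C * C = (8 : ℂ) • (1 : Matrix (Fin 8) (Fin 8) ℂ)
  φφ : φ * φ = 0
  φφH : φ * φᴴ + φᴴ * φ = (16 : ℂ) • (1 : Matrix (Fin 8) (Fin 8) ℂ)
  Aφ : A * φ = φ * A
  AC : A * C = C * A
  AB : A * B + B * A = 0
  φB : φ * B + B * φ = 0
  φC : φ * C + C * φ = 0
  BC : B * C + C * B = 0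

/-- `f` is unimodular on a half system of `H` and zero elsewhere (in particular at `0`) -/
structure HalfFlat {n : ℕ} (f : ZMod n → ℂ) : Prop where
  zero : f 0 = 0
  half : ∀ y, y ≠ 0 → (‖f y‖ = 1 ∧ f (-y) = 0) ∨ (f y = 0 ∧ ‖f (-y)‖ = 1)

/-! ### Coefficients of `(1 - z) ^ (i κ - 1)`, `(1 - z) ^ (i κ)`, `(1 - z) ^ (- i κ)` -/

/-- coefficients of `(1 - z) ^ (i κ - 1)` -/
noncomputable def gam (κ : ℝ) (j : ℕ) : ℂ :=
  ∏ i ∈ Finset.range j, (1 - Complex.I * κ / ((i : ℂ) + 1))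

/-- coefficients of `(1 - z) ^ (i κ)` -/
noncomputable def alp (κ : ℝ) : ℕ → ℂ
  | 0 => 1
  | j + 1 => -(Complex.I * κ) / ((j : ℂ) + 1) * gam κ j

/-- coefficients of `(1 - z) ^ (- i κ)` -/
noncomputable def bet (κ : ℝ) (j : ℕ) : ℂ := star (alp κ j)

/-- coefficients of `(1 - z) ^ (i κ - 1) (1 - ζ z) ^ (- i κ)` -/
noncomputable def Gco (κ : ℝ) (ζ : ℂ) (c : ℕ) : ℂ :=
  ∑ k ∈ Finset.range (c + 1), gam κ (c - k) * bet κ k * ζ ^ k

/-- coefficients of `(1 - z) ^ (i κ) (1 - ζ z) ^ (- i κ)` -/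
noncomputable def Fco (κ : ℝ) (ζ : ℂ) (c : ℕ) : ℂ :=
  ∑ k ∈ Finset.range (c + 1), alp κ (c - k) * bet κ k * ζ ^ k

/-- the regularised exponential sum; `ρ = 1` is the value on the unit circle (where the terms
`u = 0` and `u = X` are to be left out) -/
noncomputable def lzterm {n : ℕ} (κ ρ : ℝ) (X u : ZMod n) : ℂ :=
  (1 - (ρ : ℂ) * ez u) ^ (Complex.I * (κ : ℂ)) * (1 - (ρ : ℂ) * ez (u - X)) ^ (-(Complex.I * (κ : ℂ)))

/-- the value of `κ`: `exp (π κ) = 1 / 2` -/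
noncomputable def kap : ℝ := -Real.log 2 / Real.pi

end Pool.Agent.H26.U
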