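import Pool.Agent.H26.U.Defs

/-!
# Project U (MP_0c7934_co): statements of the modules

Paper proofs: team-store `U_0c7934_helper26.md`.
-/

namespace Pool.Agent.H26.U

open Matrix Pool.Agent.H54.Etf

/-- A1 SEED -/
def S_SEED : Prop := ∃ φ A B C : Matrix (Fin 8) (Fin 8) ℂ, IsSeed φ A B C

/-- A2 CAR (from SEED) -/
def S_CAR : Prop := ∀ K : ℕ, ∃ (ι : Type) (_ : Fintype ι) (_ : DecidableEq ι),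
  Nonempty (FlatCAR K ι) ∧ Fintype.card ι = 8 ^ K

/-- A3 BLK -/
def S_BLK : Prop := ∀ (K : ℕ) (ι : Type) [Fintype ι] [DecidableEq ι], FlatCAR K ι →
  ∀ (H : Type) [AddCommGroup H] [Fintype H] [DecidableEq H] (t : H), t ≠ 0 → t + t = 0 →
  ∀ f : Fin K → H → ℂ, (∀ j, f j 0 = 0 ∧ f j t = 0) →
  (∀ h, h ≠ 0 → h ≠ t → ∃ j, ((‖f j h‖ = 1 ∧ f j (-h) = 0) ∨ (f j h = 0 ∧ ‖f j (-h)‖ = 1)) ∧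
    ∀ i, i ≠ j → f i h = 0 ∧ f i (-h) = 0) →
  (∀ x, x ≠ 0 → ∑ j, acf (f j) x = 0) → Ex (Fintype.card ι * Fintype.card H)

/-- B SEQ (from CAR, BLK) -/
def S_SEQ : Prop := ∀ (τ n : ℕ) [NeZero n], 1 ≤ τ → Odd n → 3 ≤ n →
  ∀ (U R : ZMod n → ℂ) (v : Fin (τ - 1) → ZMod n → ℂ), HalfFlat U → HalfFlat R →
  (∀ j y, ‖v j y‖ = 1) → (∀ x, x ≠ 0 → acf U x + acf R x + ∑ j, acf (v j) x = 0) →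
  Ex (8 ^ (τ + 1) * (2 * τ * n))

/-- C1 EXP: expansion of the autocorrelation of a perturbed chirp -/
def S_EXP : Prop := ∀ (n : ℕ) [NeZero n], Odd n → ∀ c : ZMod n, IsUnit c → ∀ ψ : ZMod n → ℝ,
  ∀ x, x ≠ 0 → acf (fun y : ZMod n => ez (c * y ^ 2) * Complex.exp (Complex.I * ψ y)) x =
    2 * (sz (c * x ^ 2) : ℂ) * ∑ y, (ψ y : ℂ) * ez (2 * c * x * y) +
    ∑ y, ez (c * (2 * x * y - x ^ 2)) * (Complex.exp (Complex.I * ((ψ y - ψ (y - x) : ℝ) : ℂ))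
      - 1 - Complex.I * ((ψ y - ψ (y - x) : ℝ) : ℂ))

/-- C FIX: the fixed point theorem (from EXP) -/
def S_FIX : Prop := ∀ (n : ℕ) [NeZero n], Odd n → ∀ (J B : ℕ) (c : Fin J → ZMod n),
  (∀ j, IsUnit (c j)) → (∀ x : ZMod n, x ≠ 0 → 0 < ∑ j, sz (c j * x ^ 2) ^ 2) →
  ∀ r0 : ZMod n → ℂ, (∀ x, r0 (-x) = star (r0 x)) → ∀ R : ℝ, (∀ x, x ≠ 0 → ‖r0 x‖ ≤ R) →
  4 * R * (1 / (n : ℝ) * ∑ x ∈ Finset.univ.erase (0 : ZMod n),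
    1 / ∑ j, sz (c j * x ^ 2) ^ 2) < B →
  ∃ ψ : Fin J → ZMod n → ℝ, ∀ x, x ≠ 0 →
    r0 x + B * ∑ j, acf (fun y : ZMod n => ez (c j * y ^ 2) * Complex.exp (Complex.I * ψ j y)) x = 0

/-- D1 UB: sum over the units -/
def S_UB : Prop := ∃ C : ℝ, 0 < C ∧ ∀ (m : ℕ) [NeZero m], Odd m → Squarefree m → 3 ≤ m →
  ∑ u : (ZMod m)ˣ, 1 / √|sz (u : ZMod m)| ≤ C * (Nat.totient m : ℝ)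

/-- D2 UX: the same along `c x²` (from UB) -/
def S_UX : Prop := ∃ C : ℝ, 0 < C ∧ ∀ (n : ℕ) [NeZero n], Odd n → Squarefree n → 3 ≤ n →
  ∀ x : ZMod n, x ≠ 0 →
  ∑ c : (ZMod n)ˣ, 1 / √|sz ((c : ZMod n) * x ^ 2)| ≤ C * (Nat.totient n : ℝ)

/-- D3 UNI (from UX) -/
def S_UNI : Prop := ∃ A1 : ℝ, ∀ (n : ℕ) [NeZero n], Odd n → Squarefree n → 3 ≤ n →
  ∃ c : Fin 4 → ZMod n, (∀ j, IsUnit (c j)) ∧ (∀ x : ZMod n, x ≠ 0 → 0 < ∑ j, sz (c j * x ^ 2) ^ 2) ∧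
  1 / (n : ℝ) * ∑ x ∈ Finset.univ.erase (0 : ZMod n), 1 / ∑ j, sz (c j * x ^ 2) ^ 2 ≤ A1

/-- E1 GAM: elementary bounds -/
def S_GAM : Prop := ∀ κ : ℝ, |κ| ≤ 1 / 4 → (∀ j, ‖gam κ j‖ ≤ 2) ∧
  (∀ j, alp κ (j + 1) = gam κ (j + 1) - gam κ j) ∧
  (∀ j, ‖alp κ (j + 1)‖ ≤ 1 / (2 * ((j : ℝ) + 1))) ∧
  (∀ j, ‖bet κ (j + 2) - bet κ (j + 1)‖ ≤ 1 / (((j : ℝ) + 1) * ((j : ℝ) + 2)))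

/-- E2 PSB: partial sums (from GAM) -/
def S_PSB : Prop := ∃ C : ℝ, ∀ κ : ℝ, |κ| ≤ 1 / 4 → ∀ ζ : ℂ, ‖ζ‖ = 1 → ∀ k : ℕ,
  ‖∑ j ∈ Finset.range (k + 1), bet κ j * ζ ^ j‖ ≤ C

/-- E3 GBD (from GAM, PSB) -/
def S_GBD : Prop := ∃ C : ℝ, ∀ κ : ℝ, |κ| ≤ 1 / 4 → ∀ ζ : ℂ, ‖ζ‖ = 1 → ∀ c : ℕ,
  ‖Gco κ ζ c‖ ≤ C

/-- E4 FBD (from GBD) -/
def S_FBD : Prop := ∃ C : ℝ, ∀ κ : ℝ, |κ| ≤ 1 / 4 → ∀ ζ : ℂ, ‖ζ‖ = 1 → ∀ c : ℕ, 1 ≤ c →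
  ‖Fco κ ζ c‖ ≤ C / c

/-- E5 SER: the power series -/
def S_SER : Prop := ∀ κ : ℝ, ∀ z : ℂ, ‖z‖ < 1 →
  HasSum (fun k => alp κ k * z ^ k) ((1 - z) ^ (Complex.I * (κ : ℂ)))

/-- E6 VRH: the regularised sum (from FBD, SER, GAM) -/
def S_VRH : Prop := ∃ C : ℝ, ∀ κ : ℝ, |κ| ≤ 1 / 4 → ∀ (n : ℕ) [NeZero n], 3 ≤ n →
  ∀ x : ℕ, 1 ≤ x → 2 * x ≤ n → ∀ X : ZMod n, ∀ h : ℝ, 1 / (n : ℝ) ≤ h → h ≤ 2 / 3 →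
  ‖∑ u : ZMod n, ez ((x : ZMod n) * u) * lzterm κ (1 - h) X u‖ ≤ C

/-- E7 SEC: second difference in `ρ` -/
def S_SEC : Prop := ∃ C : ℝ, ∀ κ : ℝ, |κ| ≤ 1 / 4 → ∀ z z' : ℂ, ‖z‖ = 1 → ‖z'‖ = 1 →
  z ≠ 1 → z' ≠ 1 → ∀ h : ℝ, 0 < h → h ≤ 1 / 3 →
  ‖(1 - z) ^ (Complex.I * (κ : ℂ)) * (1 - z') ^ (-(Complex.I * (κ : ℂ)))
    - 2 * ((1 - ((1 - h : ℝ) : ℂ) * z) ^ (Complex.I * (κ : ℂ)) *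
        (1 - ((1 - h : ℝ) : ℂ) * z') ^ (-(Complex.I * (κ : ℂ))))
    + (1 - ((1 - 2 * h : ℝ) : ℂ) * z) ^ (Complex.I * (κ : ℂ)) *
        (1 - ((1 - 2 * h : ℝ) : ℂ) * z') ^ (-(Complex.I * (κ : ℂ)))‖
    ≤ C * h ^ 2 * (1 / ‖1 - z‖ ^ 2 + 1 / ‖1 - z'‖ ^ 2)

/-- E8 VBD (from VRH, SEC) -/
def S_VBD : Prop := ∃ C : ℝ, ∀ κ : ℝ, |κ| ≤ 1 / 4 → ∀ (n : ℕ) [NeZero n], 3 ≤ n →
  ∀ x : ℕ, 1 ≤ x → 2 * x ≤ n → ∀ X : ZMod n, X ≠ 0 →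
  ‖∑ u ∈ (Finset.univ.erase (0 : ZMod n)).erase X,
    ez ((x : ZMod n) * u) * lzterm κ 1 X u‖ ≤ C

/-- E10 CRN (from VBD) -/
def S_CRN : Prop := ∃ R0 : ℝ, ∀ (n : ℕ) [NeZero n], Odd n → 3 ≤ n →
  ∃ U R w : ZMod n → ℂ, HalfFlat U ∧ HalfFlat R ∧ (∀ y, ‖w y‖ = 1) ∧
  ∀ x, x ≠ 0 → ‖acf U x + acf R x + acf w x‖ ≤ R0

/-- F MAIN (from SEQ, FIX, UNI, CRN) -/
def S_MAIN : Prop := ∃ k0 : ℕ, ∀ k n : ℕ, k0 ≤ k → Odd n → Squarefree n → Ex (2 * (2 ^ k * n))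

/-- G ALL (from MAIN): all `n ≥ 1` -/
def S_ALL : Prop := ∃ k0 : ℕ, ∀ k n : ℕ, 1 ≤ n →
  k0 + 2 * ((n.primeFactors.erase 2).filter (fun p => p ^ 2 ∣ n)).card ≤ k →
  Ex (2 * (2 ^ k * n))

end Pool.Agent.H26.U
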